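import Pool.Agent.H.MP_286f1f_ag.G

set_option autoImplicit false

namespace Pool.Agent.H.MP_eae75b_ag

open Finset Ideal Pool.Agent.H.MP_286f1f_ag

variable {S : Type} [CommRing S]

noncomputable def len (Q : Ideal S) : ℕ∞ := Module.length S (S ⧸ Q)

lemma len_anti {Q Q' : Ideal S} (h : Q ≤ Q') : len Q' ≤ len Q := len_quot_le h

lemma len_top : len (⊤ : Ideal S) = 0 := by
  unfold len
  have : Subsingleton (S ⧸ (⊤ : Ideal S)) := Ideal.Quotient.subsingleton_iff.mpr rfl
  exact Module.length_eq_zero

lemma len_lt {Q Q' : Ideal S} (h : Q < Q') : len Q' + 1 ≤ len Q := by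
  unfold len
  rw [Module.length_quotient, Module.length_quotient]
  exact Order.coheight_add_one_le h

lemma len_colon (Q : Ideal S) (x : S) :
    len Q = len (Q.colon {x}) + len (Q ⊔ span {x}) := by
  have h1 : Q.colon {x} ≤ Submodule.comap (LinearMap.lsmul S S x) Q := fun y hy => by
    rw [Submodule.mem_colon_singleton] at hy
    simpa [mul_comm] using hy
  refine Module.length_eq_add_of_exact (Submodule.mapQ _ _ (LinearMap.lsmul S S x) h1)
    (Submodule.factor le_sup_left) ?_ (Submodule.factor_surjective _) ?_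
  · rw [injective_iff_map_eq_zero]
    intro y hy
    obtain ⟨y, rfl⟩ := Submodule.mkQ_surjective _ y
    have h2 : x * y ∈ Q := (Submodule.Quotient.mk_eq_zero _).mp hy
    exact (Submodule.Quotient.mk_eq_zero _).mpr
      (Submodule.mem_colon_singleton.mpr (by simpa [mul_comm] using h2))
  · intro y
    obtain ⟨y, rfl⟩ := Submodule.mkQ_surjective _ y
    constructor
    · intro hy
      have h2 : y ∈ Q ⊔ span {x} := (Submodule.Quotient.mk_eq_zero _).mp hy
      obtain ⟨q, hq, z, hz, rfl⟩ := Submodule.mem_sup.mp h2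
      obtain ⟨w, rfl⟩ := Ideal.mem_span_singleton'.mp hz
      refine ⟨Submodule.mkQ _ w, ?_⟩
      show Submodule.mkQ Q (x * w) = _
      rw [map_add, Submodule.mkQ_apply _ q, (Submodule.Quotient.mk_eq_zero _).mpr hq, zero_add,
        mul_comm]
    · rintro ⟨z, hz⟩
      obtain ⟨z, rfl⟩ := Submodule.mkQ_surjective _ z
      rw [← hz]
      exact (Submodule.Quotient.mk_eq_zero _).mpr
        (Submodule.mem_sup_right (Ideal.mul_mem_right z _ (Ideal.mem_span_singleton_self x)))

lemma len_mul (H : Ideal S) (x y : S) :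
    len (H ⊔ span {x * y}) ≤ len (H ⊔ span {y}) + len (H ⊔ span {x}) := by
  rw [len_colon (H ⊔ span {x * y}) x]
  refine add_le_add (len_anti (sup_le (fun z hz => ?_) ?_))
    (len_anti (sup_le_sup_right le_sup_left _))
  · exact Submodule.mem_colon_singleton.mpr (Submodule.mem_sup_left (H.mul_mem_right x hz))
  · rw [span_le, Set.singleton_subset_iff]
    exact Submodule.mem_colon_singleton.mpr (Submodule.mem_sup_right
      (by rw [smul_eq_mul, mul_comm]; exact Ideal.mem_span_singleton_self _))

lemma len_pow (H : Ideal S) (x : S) (M : ℕ) :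
    len (H ⊔ span {x ^ M}) ≤ M * len (H ⊔ span {x}) := by
  induction M with
  | zero => simp [len_top]
  | succ M ih =>
    rw [pow_succ']
    refine (len_mul H x _).trans ?_
    push_cast
    rw [add_mul, one_mul]
    exact add_le_add_left ih _

def sp {ι : Type} (f : ι → S) : Ideal S := span (Set.range f)

lemma sp_succ {a : ℕ} (f : Fin (a + 1) → S) : sp f = span {f 0} ⊔ sp (Fin.tail f) := by
  unfold sp
  rw [Fin.range_fin_succ, span_insert]

lemma sp_zero (f : Fin 0 → S) : sp f = ⊥ := by simp [sp]

lemma len_pows {a : ℕ} (M : ℕ) : ∀ (H : Ideal S) (f : Fin a → S),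
    len (H ⊔ sp fun i => f i ^ M) ≤ (M : ℕ∞) ^ a * len (H ⊔ sp f) := by
  induction a with
  | zero => intro H f; simp [sp_zero]
  | succ a ih =>
    intro H f
    rw [sp_succ, sp_succ f, ← sup_assoc]
    refine (ih _ (Fin.tail f)).trans ?_
    rw [pow_succ, mul_assoc, sup_right_comm, ← sup_assoc, sup_right_comm H (span {f 0})]
    exact mul_le_mul_right (len_pow _ _ _) _

lemma len_sp_pow {a : ℕ} : ∀ (H : Ideal S) (f : Fin a → S) (n : ℕ),
    len (H ⊔ sp f ^ (n + 1)) ≤ ((n + a).choose a : ℕ) * len (H ⊔ sp f) := by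
  induction a with
  | zero => intro H f n; simp [sp_zero]
  | succ a ih =>
    intro H f n
    induction n with
    | zero => simp
    | succ n ihn =>
      have h0 : span {f 0} ≤ sp f := by rw [sp_succ]; exact le_sup_left
      have h1 : sp (Fin.tail f) ≤ sp f := by rw [sp_succ f]; exact le_sup_right
      rw [len_colon _ (f 0)]
      have h2 : len ((H ⊔ sp f ^ (n + 1 + 1)).colon {f 0}) ≤ len (H ⊔ sp f ^ (n + 1)) := by
        refine len_anti (sup_le (fun z hz => ?_) (fun z hz => ?_))
        · exact Submodule.mem_colon_singleton.mpr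
            (Submodule.mem_sup_left (H.mul_mem_right _ hz))
        · refine Submodule.mem_colon_singleton.mpr (Submodule.mem_sup_right ?_)
          rw [pow_succ _ (n + 1)]
          exact Ideal.mul_mem_mul hz (h0 (Ideal.mem_span_singleton_self _))
      have h3 : len (H ⊔ sp f ^ (n + 1 + 1) ⊔ span {f 0}) ≤
          len (H ⊔ span {f 0} ⊔ sp (Fin.tail f) ^ (n + 1 + 1)) := by
        refine len_anti ?_
        rw [sup_right_comm]
        exact sup_le_sup_right (sup_le_sup_left (Ideal.pow_right_mono h1 _) _) _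
      have h4 := ih (H ⊔ span {f 0}) (Fin.tail f) (n + 1)
      rw [sup_assoc H _ (sp _), ← sp_succ] at h4
      refine (add_le_add (h2.trans ihn) (h3.trans h4)).trans (le_of_eq ?_)
      rw [← add_mul, ← Nat.cast_add, show n + 1 + (a + 1) = (n + 1 + a) + 1 by ring,
        Nat.choose_succ_succ', add_comm (Nat.choose _ a), show n + (a + 1) = n + 1 + a by ring]

open IsLocalRing in
lemma NK [IsLocalRing S] [IsNoetherianRing S] (Q : Ideal S) (j : ℕ) :
    (j : ℕ∞) ≤ len (Q ⊔ maximalIdeal S ^ j) ∨ maximalIdeal S ^ j ≤ Q := by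
  induction j with
  | zero => simp
  | succ j ih =>
    have h0 : maximalIdeal S ^ (j + 1) ≤ maximalIdeal S ^ j := Ideal.pow_le_pow_right j.le_succ
    rcases ih with h | h
    · rcases (sup_le_sup_left h0 Q).lt_or_eq with h1 | h1
      · left
        push_cast
        exact (add_le_add_left h 1).trans (len_lt h1)
      · right
        refine h0.trans (Submodule.le_of_le_smul_of_le_jacobson_bot (I := maximalIdeal S)
          (IsNoetherian.noetherian _) (by rw [jacobson_eq_maximalIdeal ⊥ bot_ne_top]) ?_)
        rw [smul_eq_mul, ← pow_succ', h1]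
        exact le_sup_right
    · exact Or.inr (h0.trans h)

end Pool.Agent.H.MP_eae75b_ag
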