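import Pool.Agent.H.MP_eae75b_ag.A

set_option autoImplicit false

namespace Pool.Agent.H.MP_eae75b_ag

open Finset Ideal Pool.Agent.H.MP_286f1f_ag IsLocalRing

variable {k : Type} [Field k] {σ : Type}

section
variable {W U : Type} [AddCommGroup W] [Module k W] [AddCommGroup U] [Module k U]

def PF (g : (σ → k) → W) : Prop :=
  ∀ l : W →ₗ[k] k, ∃ P : MvPolynomial σ k, ∀ c, MvPolynomial.eval c P = l (g c)

lemma PF.const (w : W) : PF (fun _ : σ → k => w) := fun l => ⟨MvPolynomial.C (l w), by simp⟩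

lemma PF.add {g h : (σ → k) → W} (hg : PF g) (hh : PF h) : PF (fun c => g c + h c) := fun l => by
  obtain ⟨P, hP⟩ := hg l
  obtain ⟨Q, hQ⟩ := hh l
  exact ⟨P + Q, by simp [hP, hQ]⟩

lemma PF.smul (s : σ) (w : W) : PF (fun c : σ → k => c s • w) := fun l =>
  ⟨MvPolynomial.X s * MvPolynomial.C (l w), by simp⟩

lemma PF.map {g : (σ → k) → W} (hg : PF g) (T : W →ₗ[k] U) : PF (fun c => T (g c)) := fun l =>
  hg (l ∘ₗ T)

lemma PF.sum {ι : Type} (s : Finset ι) {g : ι → (σ → k) → W} (hg : ∀ i, PF (g i)) :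
    PF (fun c => ∑ i ∈ s, g i c) := fun l => by
  choose P hP using fun i => hg i l
  exact ⟨∑ i ∈ s, P i, by simp [hP]⟩

lemma LA [Module.Finite k W] (T : (σ → k) → U →ₗ[k] W) (hT : ∀ u, PF fun c => T c u)
    (c0 : σ → k) (h : Function.Surjective (T c0)) : ∃ P : MvPolynomial σ k,
      MvPolynomial.eval c0 P ≠ 0 ∧ ∀ c, MvPolynomial.eval c P ≠ 0 → Function.Surjective (T c) := by
  classical
  obtain ⟨R, hR⟩ := (T c0).exists_rightInverse_of_surjective (LinearMap.range_eq_top.mpr h)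
  let b := Module.finBasis k W
  choose P hP using fun i j => hT (R (b j)) (b.coord i)
  have key : ∀ c, MvPolynomial.eval c (Matrix.of P).det = LinearMap.det (T c ∘ₗ R) := by
    intro c
    rw [RingHom.map_det, ← LinearMap.det_toMatrix b]
    congr 1
    ext i j
    simp [hP, LinearMap.toMatrix_apply]
  refine ⟨(Matrix.of P).det, by simp [key, hR], fun c hc => ?_⟩
  rw [key] at hc
  have h1 : Function.Surjective (T c ∘ₗ R) :=
    (LinearMap.equivOfDetNeZero _ hc).surjective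
  exact Function.Surjective.of_comp (g := R) h1

end

variable {S : Type} [CommRing S] [Algebra k S] [IsLocalRing S] [IsNoetherianRing S]

lemma SC (hk : ∀ m : Ideal S, m.IsMaximal → Function.Surjective (algebraMap k (S ⧸ m)))
    {ι : Type} [Fintype ι] (p : (σ → k) → ι → S) (hp : ∀ j, PF fun c => p c j) (H : Ideal S)
    (c0 : σ → k) : ∃ P : MvPolynomial σ k, MvPolynomial.eval c0 P ≠ 0 ∧
      ∀ c, MvPolynomial.eval c P ≠ 0 → len (H ⊔ sp (p c)) ≤ len (H ⊔ sp (p c0)) := by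
  by_cases h0 : len (H ⊔ sp (p c0)) = ⊤
  · exact ⟨1, by simp, fun c _ => by simp [h0]⟩
  obtain ⟨m0, hm0⟩ := ENat.ne_top_iff_exists.mp h0
  let Q0 := H ⊔ sp (p c0)
  let M := maximalIdeal S ^ (m0 + 1)
  have : Module.Finite k (S ⧸ M) := by
    have h1 := len_fin (maximalIdeal S) (maximalIdeal.isMaximal S).isPrime.radical (m0 + 1)
    rw [← len_eq hk, Module.length_ne_top_iff, isFiniteLength_iff_isNoetherian_isArtinian] at h1
    have := h1.1
    infer_instance
  obtain ⟨φ, hφ⟩ := (Q0.mkQ.restrictScalars k).exists_rightInverse_of_surjective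
    (LinearMap.range_eq_top.mpr Q0.mkQ_surjective)
  let T : (σ → k) → ((ι → S) × H × (S ⧸ Q0)) →ₗ[k] S ⧸ M := fun c =>
    M.mkQ.restrictScalars k ∘ₗ (LinearMap.coprod
      (∑ j, LinearMap.mulLeft k (p c j) ∘ₗ LinearMap.proj j)
      (LinearMap.coprod (H.subtype.restrictScalars k) φ))
  have hT : ∀ c u, T c u = M.mkQ (∑ j, u.1 j * p c j + (u.2.1 + φ u.2.2)) := by
    intro c u
    simp [T, mul_comm]
  obtain ⟨P, hP0, hP⟩ := LA T (fun u => by
    simp_rw [hT]
    exact PF.map (PF.add (PF.sum univ fun j => (hp j).map (LinearMap.mulLeft k (u.1 j)))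
      (PF.const _)) (M.mkQ.restrictScalars k)) c0 (by
    intro w
    obtain ⟨s, rfl⟩ := M.mkQ_surjective w
    have h1 : s - φ (Q0.mkQ s) ∈ Q0 := by
      rw [← Submodule.Quotient.eq]
      exact (LinearMap.congr_fun hφ (Q0.mkQ s)).symm
    obtain ⟨h, hh, z, hz, h2⟩ := Submodule.mem_sup.mp h1
    obtain ⟨r, rfl⟩ := Ideal.mem_span_range_iff_exists_fun.mp hz
    refine ⟨(r, ⟨h, hh⟩, Q0.mkQ s), ?_⟩
    rw [hT]
    congr 1
    linear_combination h2)
  refine ⟨P, hP0, fun c hc => ?_⟩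
  have h2 : len (H ⊔ sp (p c) ⊔ M) ≤ len Q0 := by
    unfold len
    rw [← len_eq hk, ← len_eq hk]
    refine Module.length_le_of_surjective
      ((H ⊔ sp (p c) ⊔ M).mkQ.restrictScalars k ∘ₗ φ) fun w => ?_
    obtain ⟨s, rfl⟩ := Submodule.mkQ_surjective _ w
    obtain ⟨u, hu⟩ := hP c hc (M.mkQ s)
    rw [hT] at hu
    have h3 := (Submodule.Quotient.eq _).mp hu
    refine ⟨u.2.2, (Submodule.Quotient.eq _).mpr ?_⟩
    have h4 : φ u.2.2 - s = (∑ j, u.1 j * p c j + (u.2.1 + φ u.2.2) - s) -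
      (u.2.1 + ∑ j, u.1 j * p c j) := by ring
    rw [h4]
    exact Ideal.sub_mem _ (Submodule.mem_sup_right h3) (Submodule.mem_sup_left
      (Submodule.add_mem_sup u.2.1.2 (Ideal.mem_span_range_iff_exists_fun.mpr ⟨_, rfl⟩)))
  rcases NK (H ⊔ sp (p c)) (m0 + 1) with h | h
  · have h5 := h.trans (h2.trans hm0.ge)
    norm_cast at h5
    omega
  · rwa [sup_eq_left.mpr h] at h2

lemma GEN [Infinite k]
    (hk : ∀ m : Ideal S, m.IsMaximal → Function.Surjective (algebraMap k (S ⧸ m)))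
    {ι : Type} [Fintype ι] (f g : ι → S) (H H' : Ideal S) : ∃ s : k,
      len (H ⊔ sp fun i => f i + s • (g i - f i)) ≤ len (H ⊔ sp f) ∧
      len (H' ⊔ sp fun i => f i + s • (g i - f i)) ≤ len (H' ⊔ sp g) := by
  have hp : ∀ j, PF fun c : Unit → k => f j + c () • (g j - f j) := fun j =>
    (PF.const _).add (PF.smul _ _)
  obtain ⟨P, hP0, hP⟩ := SC hk (fun c j => f j + c () • (g j - f j)) hp H 0
  obtain ⟨Q, hQ0, hQ⟩ := SC hk (fun c j => f j + c () • (g j - f j)) hp H' 1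
  have h1 : P * Q ≠ 0 := mul_ne_zero (by rintro rfl; simp at hP0) (by rintro rfl; simp at hQ0)
  obtain ⟨c, hc⟩ : ∃ c, MvPolynomial.eval c (P * Q) ≠ 0 := by
    by_contra! h
    exact h1 (MvPolynomial.funext fun c => by simpa using h c)
  rw [map_mul] at hc
  exact ⟨c (), by simpa using hP c (left_ne_zero_of_mul hc),
    by simpa using hQ c (right_ne_zero_of_mul hc)⟩

end Pool.Agent.H.MP_eae75b_ag
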