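import Pool.Agent.H.MP_eae75b_ag.B

set_option autoImplicit false

namespace Pool.Agent.H.MP_eae75b_ag

open Finset Ideal Pool.Agent.H.MP_286f1f_ag IsLocalRing Filter Topology

variable {k : Type} [Field k] {S : Type} [CommRing S] [Algebra k S]

noncomputable def psi (H : Ideal S) (V : Submodule k S) (A B : Ideal S) (a b c : ℕ) : ℕ∞ :=
  sInf {x | ∃ (f : Fin a → S) (g : Fin b → S) (l : Fin c → S), (∀ i, f i ∈ A) ∧ (∀ i, g i ∈ B) ∧
    (∀ i, l i ∈ V) ∧ len (H ⊔ (sp f ⊔ (sp g ⊔ sp l))) = x}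

variable {H : Ideal S} {V : Submodule k S} {A B I J : Ideal S} {a b c : ℕ}

lemma psi_ex (H : Ideal S) (V : Submodule k S) (A B : Ideal S) (a b c : ℕ) :
    ∃ (f : Fin a → S) (g : Fin b → S) (l : Fin c → S), (∀ i, f i ∈ A) ∧ (∀ i, g i ∈ B) ∧
    (∀ i, l i ∈ V) ∧ len (H ⊔ (sp f ⊔ (sp g ⊔ sp l))) = psi H V A B a b c :=
  csInf_mem (s := {x | ∃ (f : Fin a → S) (g : Fin b → S) (l : Fin c → S), (∀ i, f i ∈ A) ∧
    (∀ i, g i ∈ B) ∧ (∀ i, l i ∈ V) ∧ len (H ⊔ (sp f ⊔ (sp g ⊔ sp l))) = x})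
    ⟨_, 0, 0, 0, by simp, by simp, by simp, rfl⟩

lemma psi_le {f : Fin a → S} {g : Fin b → S} {l : Fin c → S} (hf : ∀ i, f i ∈ A)
    (hg : ∀ i, g i ∈ B) (hl : ∀ i, l i ∈ V) :
    psi H V A B a b c ≤ len (H ⊔ (sp f ⊔ (sp g ⊔ sp l))) :=
  sInf_le ⟨f, g, l, hf, hg, hl, rfl⟩

lemma psi_pow {A' B' : Ideal S} (M : ℕ) (hA : ∀ x ∈ A, x ^ M ∈ A') (hB : ∀ x ∈ B, x ^ M ∈ B') :
    psi H V A' B' a b c ≤ (M : ℕ∞) ^ (a + b) * psi H V A B a b c := by
  obtain ⟨f, g, l, hf, hg, hl, h⟩ := psi_ex H V A B a b c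
  refine (psi_le (fun i => hA _ (hf i)) (fun i => hB _ (hg i)) hl).trans ?_
  rw [← h, pow_add, mul_assoc]
  have h1 := len_pows M (H ⊔ (sp (fun i => g i ^ M) ⊔ sp l)) f
  have h2 := len_pows M (H ⊔ (sp f ⊔ sp l)) g
  calc _ = _ := by congr 1; ac_rfl
    _ ≤ _ := h1
    _ ≤ _ := by
      refine mul_le_mul_right ?_ _
      calc _ = _ := by congr 1; ac_rfl
        _ ≤ _ := h2
        _ = _ := by congr 2; ac_rfl

lemma sp_sum {α β : Type} (F : α ⊕ β → S) :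
    sp F = sp (fun i => F (.inl i)) ⊔ sp (fun i => F (.inr i)) := by
  unfold sp
  rw [← span_union]
  congr 1
  ext x
  simp

noncomputable def Phi (H : Ideal S) (V : Submodule k S) (I J : Ideal S) (a b c : ℕ) : ENNReal :=
  ⨅ N : ℕ+, (psi H V (I ^ (N : ℕ)) (J ^ (N : ℕ)) a b c : ENNReal) / ((N : ℕ) : ENNReal) ^ (a + b)

lemma div_aux (x : ENNReal) (N M : ℕ+) (e : ℕ) :
    ((M : ℕ) : ENNReal) ^ e * x / (((N * M : ℕ+) : ℕ) : ENNReal) ^ e =
      x / ((N : ℕ) : ENNReal) ^ e := by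
  rw [PNat.mul_coe, Nat.cast_mul, mul_pow, mul_comm (((N : ℕ) : ENNReal) ^ e),
    ENNReal.mul_div_mul_left _ _ (by simp) (by simp)]

lemma psi_lev (N M : ℕ+) : (psi H V (I ^ ((N * M : ℕ+) : ℕ)) (J ^ ((N * M : ℕ+) : ℕ)) a b c :
    ENNReal) ≤ ((M : ℕ) : ENNReal) ^ (a + b) * psi H V (I ^ (N : ℕ)) (J ^ (N : ℕ)) a b c := by
  have h := psi_pow (H := H) (V := V) (a := a) (b := b) (c := c) (A := I ^ (N : ℕ))
    (B := J ^ (N : ℕ)) (A' := I ^ ((N * M : ℕ+) : ℕ)) (B' := J ^ ((N * M : ℕ+) : ℕ)) M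
    (fun x hx => by rw [PNat.mul_coe, pow_mul]; exact Ideal.pow_mem_pow hx _)
    (fun x hx => by rw [PNat.mul_coe, pow_mul]; exact Ideal.pow_mem_pow hx _)
  exact_mod_cast h

lemma Phi_mono {H' : Ideal S} {V' : Submodule k S} {I' J' : Ideal S} {a' b' c' : ℕ}
    (he : a + b = a' + b') (h : ∀ N : ℕ, psi H V (I ^ N) (J ^ N) a b c ≤
      psi H' V' (I' ^ N) (J' ^ N) a' b' c') : Phi H V I J a b c ≤ Phi H' V' I' J' a' b' c' :=
  iInf_mono fun N => by
    rw [he]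
    exact ENNReal.div_le_div_right (by exact_mod_cast h N) _

lemma SYM1 : Phi H V I J 0 b c ≤ Phi H V J J b 0 c := by
  refine Phi_mono (by simp) fun N => ?_
  obtain ⟨f, g, l, hf, hg, hl, h⟩ := psi_ex H V (J ^ N) (J ^ N) b 0 c
  refine (psi_le (f := g) (fun i => i.elim0) hf hl).trans (le_of_eq ?_)
  rw [← h]
  congr 1
  ac_rfl

lemma SYM2 {J' : Ideal S} : Phi H V I J' a 0 c ≤ Phi H V I J a 0 c := by
  refine Phi_mono rfl fun N => ?_
  obtain ⟨f, g, l, hf, hg, hl, h⟩ := psi_ex H V (I ^ N) (J ^ N) a 0 c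
  exact (psi_le (g := g) hf (fun i => i.elim0) hl).trans h.le

lemma S2 {x : S} {V' : Submodule k S} (hx : x ∈ V) (hV : V' ≤ V) :
    Phi H V I I a 0 (c + 1) ≤ Phi (H ⊔ span {x}) V' (I ⊔ span {x}) (I ⊔ span {x}) a 0 c := by
  refine Phi_mono rfl fun N => ?_
  obtain ⟨f, g, l, hf, hg, hl, h⟩ :=
    psi_ex (H ⊔ span {x}) V' ((I ⊔ span {x}) ^ N) ((I ⊔ span {x}) ^ N) a 0 c
  have h1 : (I ⊔ span {x}) ^ N ≤ I ^ N ⊔ span {x} := by
    clear h hf hg
    induction N with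
    | zero => simp
    | succ N ih =>
      rw [pow_succ, pow_succ]
      refine (Ideal.mul_mono_left ih).trans ?_
      rw [Ideal.sup_mul, Ideal.mul_sup]
      exact sup_le (sup_le_sup_left mul_le_right _) (le_sup_of_le_right mul_le_left)
  choose f' hf' z hz e using fun i => Submodule.mem_sup.mp (h1 (hf i))
  refine (psi_le (g := g) (l := Fin.cons x l) hf' (fun i => i.elim0)
    (Fin.cases hx fun i => hV (hl i))).trans ?_
  rw [← h, sp_succ (Fin.cons x l), Fin.cons_zero, Fin.tail_cons, sp_zero]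
  refine len_anti (sup_le (sup_le le_sup_left ?_) (sup_le ?_ ?_))
  · exact le_sup_of_le_right (le_sup_of_le_right (le_sup_of_le_right le_sup_left))
  · refine span_le.mpr ?_
    rintro _ ⟨i, rfl⟩
    rw [← e i]
    exact Submodule.mem_sup_right (Submodule.add_mem_sup (subset_span ⟨i, rfl⟩)
      (Submodule.mem_sup_right (Submodule.mem_sup_left (hz i))))
  · exact le_sup_of_le_right (le_sup_of_le_right (sup_le_sup_left le_sup_right _))

lemma TOP : Phi H V ⊤ J (a + 1) b c = 0 := by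
  refine le_antisymm (iInf_le_of_le 1 ?_) (zero_le)
  have h := psi_le (H := H) (V := V) (A := ⊤ ^ ((1 : ℕ+) : ℕ)) (B := J ^ ((1 : ℕ+) : ℕ))
    (f := fun _ : Fin (a + 1) => 1) (g := fun _ : Fin b => 0) (l := fun _ : Fin c => 0)
    (by simp) (by simp) (by simp)
  rw [sp_succ, span_singleton_one, top_sup_eq, top_sup_eq, sup_top_eq, len_top,
    nonpos_iff_eq_zero] at h
  rw [h]
  simp

lemma ZERO : Phi H V I J 0 0 0 ≤ len H := by
  refine iInf_le_of_le 1 ?_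
  have h := psi_le (H := H) (V := V) (A := I ^ ((1 : ℕ+) : ℕ)) (B := J ^ ((1 : ℕ+) : ℕ))
    (f := fun _ : Fin 0 => 0) (g := fun _ : Fin 0 => 0) (l := fun _ : Fin 0 => 0)
    (by simp) (by simp) (by simp)
  simp only [sp_zero, sup_bot_eq] at h
  simpa using h

lemma INV {I' : Ideal S} (C : ℕ) (h : ∀ N, I' ^ (N + C) ≤ I ^ N) :
    Phi H V I I a 0 c ≤ Phi H V I' I' a 0 c := by
  refine le_iInf fun N => ?_
  by_cases h0 : psi H V (I' ^ (N : ℕ)) (I' ^ (N : ℕ)) a 0 c = ⊤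
  · rw [h0, ENat.toENNReal_top, ENNReal.top_div_of_ne_top (by simp)]
    exact le_top
  obtain ⟨r, hr⟩ := ENat.ne_top_iff_exists.mp h0
  have hN : (0 : ℝ) < (N : ℕ) := by exact_mod_cast N.pos
  have h1 := ENNReal.tendsto_ofReal ((tendsto_const_nhds (x := (r : ℝ))).div (ev (N : ℕ) (-C) a)
    (pow_pos hN a).ne')
  rw [ENNReal.ofReal_div_of_pos (pow_pos hN a), ENNReal.ofReal_pow hN.le, ENNReal.ofReal_natCast,
    ENNReal.ofReal_natCast] at h1
  rw [← hr, add_zero]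
  refine ge_of_tendsto h1 ?_
  filter_upwards [eventually_gt_atTop C] with M hM
  have h2 : C < N * M := lt_of_lt_of_le hM (Nat.le_mul_of_pos_left M N.pos)
  have h3 : ∀ x ∈ I' ^ (N : ℕ), x ^ M ∈ I ^ (N * M - C) := fun x hx => h _ (by
    rw [Nat.sub_add_cancel h2.le, pow_mul]
    exact Ideal.pow_mem_pow hx _)
  have h4 := psi_pow (H := H) (V := V) (a := a) (b := 0) (c := c) M h3 h3
  rw [← hr] at h4
  refine iInf_le_of_le ⟨N * M - C, by omega⟩ ?_
  have h5 : (0 : ℝ) < ((N * M - C : ℕ) : ℝ) := by exact_mod_cast Nat.sub_pos_of_lt h2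
  have h6 : ((N : ℕ) : ℝ) * M + -C = ((N * M - C : ℕ) : ℝ) := by
    rw [Nat.cast_sub h2.le]
    push_cast
    ring
  simp only [Pi.div_apply]
  rw [h6, div_div_eq_mul_div, ENNReal.ofReal_div_of_pos (pow_pos h5 a), ENNReal.ofReal_pow h5.le,
    ENNReal.ofReal_natCast, ← Nat.cast_pow M, ← Nat.cast_mul, ENNReal.ofReal_natCast]
  refine ENNReal.div_le_div_right ?_ _
  rw [mul_comm r]
  exact_mod_cast h4

variable [IsLocalRing S] [IsNoetherianRing S] [Infinite k]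

lemma psi_split (hk : ∀ m : Ideal S, m.IsMaximal → Function.Surjective (algebraMap k (S ⧸ m)))
    (N : ℕ) (h : ∀ x ∈ V, ∀ y ∈ B, x ^ N * y ∈ A) :
    psi H V A B (a + 1) b c ≤ psi H V A B a (b + 1) c + N * psi H V A B a b (c + 1) := by
  obtain ⟨f, g, l, hf, hg, hl, e⟩ := psi_ex H V A B a (b + 1) c
  obtain ⟨f', g', l', hf', hg', hl', e'⟩ := psi_ex H V A B a b (c + 1)
  obtain ⟨s, h1, h2⟩ := GEN hk (Sum.elim f (Sum.elim (Fin.tail g) l))
    (Sum.elim f' (Sum.elim g' (Fin.tail l'))) (H ⊔ span {g 0}) (H ⊔ span {l' 0})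
  simp only [sp_sum, Sum.elim_inl, Sum.elim_inr] at h1 h2
  refine (psi_le (f := Fin.cons (l' 0 ^ N * g 0) fun i => f i + s • (f' i - f i))
    (g := fun i => Fin.tail g i + s • (g' i - Fin.tail g i))
    (l := fun i => l i + s • (Fin.tail l' i - l i))
    (Fin.cases (h _ (hl' 0) _ (hg 0)) fun i =>
      A.add_mem (hf i) (Submodule.smul_of_tower_mem _ s (A.sub_mem (hf' i) (hf i))))
    (fun i => B.add_mem (hg _) (Submodule.smul_of_tower_mem _ s (B.sub_mem (hg' i) (hg _))))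
    fun i => V.add_mem (hl i) (V.smul_mem s (V.sub_mem (hl' _) (hl i)))).trans ?_
  rw [sp_succ, Fin.cons_zero, Fin.tail_cons, ← e, ← e', sp_succ g, sp_succ l']
  set Z := sp (fun i => f i + s • (f' i - f i)) ⊔
    (sp (fun i => Fin.tail g i + s • (g' i - Fin.tail g i)) ⊔
      sp fun i => l i + s • (Fin.tail l' i - l i)) with hZ
  calc _ = len (H ⊔ Z ⊔ span {l' 0 ^ N * g 0}) := by congr 1; rw [hZ]; ac_rfl
    _ ≤ _ := len_mul _ _ _
    _ ≤ _ := by
      refine add_le_add ?_ ((len_pow _ _ _).trans (mul_le_mul_right ?_ _))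
      · calc _ = _ := by congr 1; ac_rfl
          _ ≤ _ := h1
          _ = _ := by congr 1; ac_rfl
      · calc _ = _ := by congr 1; ac_rfl
          _ ≤ _ := h2
          _ = _ := by congr 1; ac_rfl

lemma S1 (hk : ∀ m : Ideal S, m.IsMaximal → Function.Surjective (algebraMap k (S ⧸ m)))
    (h : ∀ x ∈ V, span {x} * J ≤ I) :
    Phi H V I J (a + 1) b c ≤ Phi H V I J a (b + 1) c + Phi H V I J a b (c + 1) := by
  refine ENNReal.le_iInf_add_iInf fun N M => iInf_le_of_le (N * M) ?_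
  have h1 := psi_split (H := H) (V := V) (a := a) (b := b) (c := c) (A := I ^ ((N * M : ℕ+) : ℕ))
    (B := J ^ ((N * M : ℕ+) : ℕ)) hk (N * M : ℕ+) fun x hx y hy => by
      refine Ideal.pow_right_mono (h x hx) _ ?_
      rw [mul_pow]
      exact Ideal.mul_mem_mul (Ideal.pow_mem_pow (mem_span_singleton_self x) _) hy
  have h2 := ENat.toENNReal_le.mpr h1
  rw [ENat.toENNReal_add, ENat.toENNReal_mul, ENat.toENNReal_coe] at h2
  refine (ENNReal.div_le_div_right h2 _).trans ?_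
  rw [ENNReal.add_div, ← div_aux _ N M, ← div_aux _ M N, mul_comm M N]
  refine add_le_add ?_ ?_
  · rw [show a + 1 + b = a + (b + 1) by ring]
    exact ENNReal.div_le_div_right (psi_lev N M) _
  · rw [show a + 1 + b = a + b + 1 by ring, pow_succ', ENNReal.mul_div_mul_left _ _ (by simp)
      (ENNReal.natCast_ne_top _)]
    refine ENNReal.div_le_div_right ?_ _
    rw [mul_comm N M]
    exact psi_lev M N

end Pool.Agent.H.MP_eae75b_ag
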