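import Pool.Agent.H.MP_eae75b_ag.C

set_option autoImplicit false

namespace Pool.Agent.H.MP_eae75b_ag

open Finset Ideal Polynomial

variable {k : Type} [Field k] {S : Type} [CommRing S]

lemma cmem (f : S[X]) (i : ℕ) : f.coeff i ∈ sp f.coeff := subset_span ⟨i, rfl⟩

lemma cle {ι : Type} {f : ι → S} {Q : Ideal S} : sp f ≤ Q ↔ ∀ i, f i ∈ Q := by
  unfold sp
  rw [span_le, Set.range_subset_iff]
  rfl

lemma cmul {ι : Type} {f : ι → S} {Q T : Ideal S} (h : ∀ i, span {f i} * Q ≤ T) :
    sp f * Q ≤ T := by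
  refine Ideal.mul_le.mpr fun r hr s hs => ?_
  have : sp f ≤ T.colon {s} := cle.mpr fun i => Submodule.mem_colon_singleton.mpr
    (h i (Ideal.mul_mem_mul (mem_span_singleton_self _) hs))
  exact Submodule.mem_colon_singleton.mp (this hr)

lemma DM (f : S[X]) (m : ℕ) : ∀ g : S[X], (∀ j, m ≤ j → g.coeff j = 0) →
    sp f.coeff ^ (m + 1) * sp g.coeff ≤ sp f.coeff ^ m * sp (f * g).coeff := by
  induction m with
  | zero =>
    intro g hg
    have : sp g.coeff ≤ ⊥ := cle.mpr fun i => by simp [hg i (Nat.zero_le i)]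
    simp [le_bot_iff.mp this]
  | succ m ih =>
    intro g hg
    set F := sp f.coeff with hF
    set T := F ^ (m + 1) * sp (f * g).coeff with hT
    let b := g.coeff m
    let g1 := g - monomial m b
    have h1 : ∀ j, g1.coeff j = if m = j then 0 else g.coeff j := fun j => by
      simp only [g1, coeff_sub, coeff_monomial]
      split_ifs with h
      · simp [b, h]
      · simp
    have h2 : sp (f * g1).coeff ≤ sp (f * g).coeff ⊔ span {b} * F := cle.mpr fun i => by
      rw [mul_sub, coeff_sub, ← C_mul_X_pow_eq_monomial, ← mul_assoc, coeff_mul_X_pow']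
      refine Ideal.sub_mem _ (Submodule.mem_sup_left (cmem _ _)) (Submodule.mem_sup_right ?_)
      split_ifs
      · rw [coeff_mul_C, mul_comm _ b]
        exact Ideal.mul_mem_mul (mem_span_singleton_self b) (cmem _ _)
      · exact zero_mem _
    have h3 : ∀ E ≤ F, E * (span {b} * F ^ (m + 1)) ≤ T → E * (F ^ (m + 1) * sp g1.coeff) ≤ T := by
      intro E hE hE'
      refine (Ideal.mul_mono_right ((ih g1 fun j hj => ?_).trans (Ideal.mul_mono_right h2))).trans
        ?_
      · rw [h1]
        split_ifs with h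
        · rfl
        · exact hg j (by omega)
      · rw [Ideal.mul_sup, Ideal.mul_sup]
        refine sup_le ((Ideal.mul_mono_left hE).trans (le_of_eq ?_)) ((le_of_eq ?_).trans hE')
        · rw [hT]
          ring
        · ring
    have h4 : ∀ n i, f.natDegree < i + n → span {f.coeff i} * (span {b} * F ^ (m + 1)) ≤ T := by
      intro n
      induction n with
      | zero =>
        intro i hi
        simp [coeff_eq_zero_of_natDegree_lt (p := f) (n := i) hi]
      | succ n ihn =>
        intro i hi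
        rw [← mul_assoc, span_singleton_mul_span_singleton, span_singleton_mul_le_iff]
        intro z hz
        have h5 := add_sum_erase (antidiagonal (i + m)) (fun p => f.coeff p.1 * g.coeff p.2)
          (a := (i, m)) (by simp)
        rw [← coeff_mul, ← eq_sub_iff_add_eq] at h5
        rw [h5, sub_mul, sum_mul, mul_comm _ z]
        refine Ideal.sub_mem _ (Ideal.mul_mem_mul hz (cmem _ _)) (sum_mem fun p hp => ?_)
        simp only [mem_erase, HasAntidiagonal.mem_antidiagonal, ne_eq, Prod.ext_iff] at hp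
        by_cases h6 : m + 1 ≤ p.2
        · simp [hg _ h6]
        have h7 : g.coeff p.2 = g1.coeff p.2 := by rw [h1, if_neg (by omega)]
        rw [h7, mul_assoc, mul_comm _ z]
        exact h3 _ (span_le.mpr (Set.singleton_subset_iff.mpr (cmem _ _))) (ihn p.1 (by omega))
          (Ideal.mul_mem_mul (mem_span_singleton_self _) (Ideal.mul_mem_mul hz (cmem _ _)))
    have h8 : F * (span {b} * F ^ (m + 1)) ≤ T := cmul fun i => h4 (f.natDegree + 1) i (by omega)
    have h9 : sp g.coeff ≤ span {b} ⊔ sp g1.coeff := cle.mpr fun i => by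
      by_cases h : m = i
      · exact Submodule.mem_sup_left (h ▸ mem_span_singleton_self _)
      · have h7 : g.coeff i = g1.coeff i := by rw [h1, if_neg h]
        exact Submodule.mem_sup_right (h7 ▸ cmem _ _)
    refine (Ideal.mul_mono_right h9).trans ?_
    rw [Ideal.mul_sup]
    exact sup_le ((le_of_eq (by ring)).trans h8) ((le_of_eq (by ring)).trans (h3 F le_rfl h8))

lemma red_pow {I K : Ideal S} {m : ℕ} (h : K ^ (m + 1) ≤ I * K ^ m) (N : ℕ) :
    (I ⊔ K) ^ (N + m) ≤ I ^ N := by
  have h1 : ∀ n, (I ⊔ K) ^ (n + 1) ≤ I * (I ⊔ K) ^ n ⊔ K ^ (n + 1) := by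
    intro n
    induction n with
    | zero => simp
    | succ n ih =>
      rw [pow_succ]
      refine (Ideal.mul_mono_left ih).trans ?_
      rw [Ideal.sup_mul, mul_assoc, ← pow_succ, Ideal.mul_sup, ← pow_succ]
      refine sup_le le_sup_left (sup_le_sup_right ?_ _)
      rw [mul_comm]
      exact Ideal.mul_mono_right (Ideal.pow_right_mono le_sup_right _)
  have h2 : (I ⊔ K) ^ (m + 1) ≤ I * (I ⊔ K) ^ m := (h1 m).trans (sup_le le_rfl
    (h.trans (Ideal.mul_mono_right (Ideal.pow_right_mono le_sup_right _))))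
  have h3 : (I ⊔ K) ^ (N + m) ≤ I ^ N * (I ⊔ K) ^ m := by
    induction N with
    | zero => simp
    | succ N ih =>
      rw [add_right_comm, pow_succ]
      refine (Ideal.mul_mono_left ih).trans ?_
      rw [mul_assoc, ← pow_succ, pow_succ I, mul_assoc]
      exact Ideal.mul_mono_right h2
  exact h3.trans mul_le_left

lemma eval_mem (y : S[X]) (s : S) : y.eval s ∈ sp y.coeff := by
  rw [eval_eq_sum_range]
  exact sum_mem fun i _ => Ideal.mul_mem_right _ _ (cmem _ _)

lemma dich [Algebra k S] [Infinite k] [IsNoetherianRing S] (I : Ideal S) (p : S[X]) :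
    (∃ (I' : Ideal S) (C : ℕ), I < I' ∧ ∀ N, I' ^ (N + C) ≤ I ^ N) ∨
    ∃ c : k, ∀ y, p.eval (algebraMap k S c) * y ∈ I → ∀ z ∈ sp p.coeff, z * y ∈ I := by
  by_cases hB : ∀ Y : S[X], p * Y ∈ I.map C → sp p.coeff * sp Y.coeff ≤ I
  swap
  · push Not at hB
    obtain ⟨Y, h1, h2⟩ := hB
    refine Or.inl ⟨I ⊔ sp p.coeff * sp Y.coeff, Y.natDegree + 1, left_lt_sup.mpr h2,
      red_pow ?_⟩
    have h3 := DM p (Y.natDegree + 1) Y fun j hj => coeff_eq_zero_of_natDegree_lt hj
    have h4 := cle.mpr (Ideal.mem_map_C_iff.mp h1)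
    generalize Y.natDegree + 1 = m at h3 ⊢
    calc _ = sp p.coeff ^ (m + 1) * sp Y.coeff * sp Y.coeff ^ m := by ring
      _ ≤ sp p.coeff ^ m * I * sp Y.coeff ^ m :=
        Ideal.mul_mono_left (h3.trans (Ideal.mul_mono_right h4))
      _ = _ := by ring
  right
  let L : Ideal S[X] := span {p} ⊔ I.map C
  obtain ⟨_, ⟨δ, hδ, rfl⟩, hmax⟩ := set_has_maximal_iff_noetherian.mpr
    (inferInstance : IsNoetherian S[X] S[X])
    {Q | ∃ δ : k[X], δ ≠ 0 ∧ L.colon {δ.map (algebraMap k S)} = Q} ⟨_, 1, one_ne_zero, rfl⟩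
  obtain ⟨c, hc⟩ : ∃ c, δ.eval c ≠ 0 := by
    by_contra! h
    exact hδ (Polynomial.funext fun c => by simpa using h c)
  refine ⟨c, fun y hy z hz => ?_⟩
  set c' := algebraMap k S c with hc'
  set D := δ.map (algebraMap k S) with hD
  obtain ⟨w, hw⟩ : X - C c' ∣ p * C y - C (p.eval c' * y) := dvd_iff_isRoot.mpr (by simp)
  have h0 : C (p.eval c' * y) ∈ I.map C := Ideal.mem_map_of_mem _ hy
  have h1 : L.colon {D} ≤ L.colon {(δ * (X - C c)).map (algebraMap k S)} := fun v hv => by
    rw [Submodule.mem_colon_singleton, smul_eq_mul] at hv ⊢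
    rw [Polynomial.map_mul, ← mul_assoc]
    exact L.mul_mem_right _ hv
  have h2 : w ∈ L.colon {D} := by
    rw [h1.eq_of_not_lt (hmax _ ⟨_, mul_ne_zero hδ (X_sub_C_ne_zero c), rfl⟩),
      Submodule.mem_colon_singleton, smul_eq_mul, Polynomial.map_mul, Polynomial.map_sub, map_X,
      map_C, mul_left_comm, mul_comm w, ← hw]
    exact L.mul_mem_left _ (L.sub_mem (Submodule.mem_sup_left
      (Ideal.mul_mem_right _ _ (mem_span_singleton_self p))) (Submodule.mem_sup_right h0))
  obtain ⟨_, h3, v, hv, h4⟩ := Submodule.mem_sup.mp (Submodule.mem_colon_singleton.mp h2)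
  obtain ⟨u, rfl⟩ := Ideal.mem_span_singleton'.mp h3
  have h5 := hB (D * C y - (X - C c') * u) (by
    have : p * (D * C y - (X - C c') * u) = D * C (p.eval c' * y) + (X - C c') * v := by
      rw [smul_eq_mul] at h4
      linear_combination D * hw - (X - C c') * h4
    rw [this]
    exact add_mem (Ideal.mul_mem_left _ _ h0) (Ideal.mul_mem_left _ _ hv))
  have h6 := h5 (Ideal.mul_mem_mul hz (eval_mem _ c'))
  have h7 : D.eval c' = algebraMap k S (δ.eval c) := by
    rw [hD, hc', eval_map, eval₂_at_apply]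
  simp only [eval_sub, eval_mul, eval_C, eval_X, sub_self, zero_mul, sub_zero, h7] at h6
  rw [mul_left_comm] at h6
  exact (Ideal.unit_mul_mem_iff_mem _ ((Ne.isUnit hc).map _)).mp h6

end Pool.Agent.H.MP_eae75b_ag
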