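import Pool.Agent.H.MP_eae75b_ag.D

set_option autoImplicit false

namespace Pool.Agent.H.MP_eae75b_ag

open Finset Ideal IsLocalRing

lemma expand {T : Type} [CommSemiring T] (v z : T) (n : ℕ) : ∏ j ∈ range n, (v + j * z) =
    ∑ p ∈ antidiagonal n, (ascPochhammer ℕ n).coeff p.1 • (v ^ p.1 * z ^ p.2) := by
  have h : ∏ j ∈ range n, (v + j * z) =
      MvPolynomial.aeval ![v, z] ((ascPochhammer ℕ n).homogenize n) := by
    induction n with
    | zero => simp
    | succ n ih =>
      rw [prod_range_succ, ih, ascPochhammer_succ_right, Polynomial.homogenize_mul _ _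
        (ascPochhammer_natDegree ℕ n).le (n := 1) (by compute_degree), map_mul,
        ← Polynomial.C_eq_natCast, Polynomial.homogenize_add, Polynomial.homogenize_C]
      simp
  rw [h, Polynomial.homogenize, map_sum]
  refine sum_congr rfl fun p _ => ?_
  rw [MvPolynomial.aeval_monomial, Finsupp.prod_fintype _ _ (by simp)]
  simp

noncomputable def SS (n : ℕ) (F : ℕ → ℕ → ENNReal) : ENNReal :=
  ∑ p ∈ antidiagonal n, ((ascPochhammer ℕ n).coeff p.1 : ℕ) * F p.1 p.2

lemma SS_mono {n : ℕ} {F G : ℕ → ℕ → ENNReal} (h : ∀ a c, F a c ≤ G a c) : SS n F ≤ SS n G :=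
  sum_le_sum fun _ _ => mul_le_mul_right (h _ _) _

open MvPolynomial in
lemma UMB (Φ : ℕ → ℕ → ℕ → ENNReal) (h : ∀ a b c, Φ (a + 1) b c ≤ Φ a (b + 1) c + Φ a b (c + 1))
    (n : ℕ) : SS (n + 1) (fun a c => Φ a 0 c) ≤ SS (n + 1) (fun b c => Φ 0 b c) +
      (n + 1 : ℕ) * SS n (fun a c => Φ a 0 (c + 1)) := by
  let φ : MvPolynomial (Fin 3) ℕ →ₗ[ℕ] ENNReal :=
    (basisMonomials (Fin 3) ℕ).constr ℕ fun m => Φ (m 0) (m 1) (m 2)
  have h0 : ∀ m, φ (monomial m 1) = Φ (m 0) (m 1) (m 2) := fun m =>
    (basisMonomials (Fin 3) ℕ).constr_basis ℕ _ m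
  let u : MvPolynomial (Fin 3) ℕ := X 0
  let w : MvPolynomial (Fin 3) ℕ := X 1
  let z : MvPolynomial (Fin 3) ℕ := X 2
  have h1 : ∀ a b c, φ (u ^ a * w ^ b * z ^ c) = Φ a b c := fun a b c => by
    simp [u, w, z, X_pow_eq_monomial, h0]
  have h2 : ∀ A, φ (A * u) ≤ φ (A * w) + φ (A * z) := fun A => by
    induction A using MvPolynomial.induction_on' with
    | monomial m r =>
      have : monomial m r = r • monomial m 1 := by simp [smul_monomial]
      simp only [this, smul_mul_assoc, map_smul, ← smul_add, u, w, z, X, monomial_mul, mul_one, h0]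
      exact nsmul_le_nsmul_right (by simpa using h _ _ _) r
    | add p q hp hq =>
      simp only [add_mul, map_add]
      exact (add_le_add hp hq).trans (le_of_eq (by ring))
  have h3 : ∀ (A : MvPolynomial (Fin 3) ℕ) (j : ℕ), φ (A * (u + j * z)) ≤ φ (A * (w + (j + 1 : ℕ) * z)) := by
    intro A j
    have e : A * (w + (j + 1 : ℕ) * z) = A * w + A * z + A * (j * z) := by
      push_cast
      ring
    rw [e, mul_add, map_add, map_add, map_add]
    exact add_le_add_left (h2 A) _
  have h4 : ∀ (j : ℕ) (A : MvPolynomial (Fin 3) ℕ), φ (A * ∏ l ∈ range j, (u + l * z)) ≤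
      φ (A * ∏ l ∈ range j, (w + (l + 1 : ℕ) * z)) := by
    intro j
    induction j with
    | zero => simp
    | succ j ih =>
      intro A
      rw [prod_range_succ, prod_range_succ, ← mul_assoc, ← mul_assoc, mul_right_comm]
      refine (ih _).trans ?_
      rw [mul_right_comm]
      exact h3 _ _
  have e1 : SS (n + 1) (fun a c => Φ a 0 c) = φ (∏ l ∈ range (n + 1), (u + l * z)) := by
    rw [expand, map_sum]
    refine sum_congr rfl fun p _ => ?_
    beta_reduce
    rw [map_smul, ← h1, nsmul_eq_mul, pow_zero, mul_one]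
  have e2 : SS (n + 1) (fun b c => Φ 0 b c) = φ (∏ l ∈ range (n + 1), (w + l * z)) := by
    rw [expand, map_sum]
    refine sum_congr rfl fun p _ => ?_
    beta_reduce
    rw [map_smul, ← h1, nsmul_eq_mul, pow_zero, one_mul]
  have e3 : SS n (fun a c => Φ a 0 (c + 1)) = φ ((∏ l ∈ range n, (u + l * z)) * z) := by
    rw [expand, sum_mul, map_sum]
    refine sum_congr rfl fun p _ => ?_
    beta_reduce
    rw [smul_mul_assoc, map_smul, ← h1, nsmul_eq_mul, pow_zero, mul_one, pow_succ, mul_assoc]
  rw [e1, e2, e3, prod_range_succ, prod_range_succ']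
  refine (h3 _ _).trans ?_
  rw [mul_add, map_add, mul_left_comm, ← nsmul_eq_mul, map_nsmul, nsmul_eq_mul, mul_comm _ w,
    Nat.cast_zero, zero_mul, add_zero, mul_comm _ w]
  exact add_le_add_left (h4 _ _) _

variable {k : Type} [Field k] {S : Type} [CommRing S] [Algebra k S] [IsLocalRing S]
  [IsNoetherianRing S] [Infinite k]

theorem main (hk : ∀ m : Ideal S, m.IsMaximal → Function.Surjective (algebraMap k (S ⧸ m)))
    (n : ℕ) : ∀ (H : Ideal S) (x : Fin n → S), (∀ i, x i ∈ maximalIdeal S) →
      maximalIdeal S ≤ H ⊔ sp x → ∀ I : Ideal S, H ≤ I → (n = 0 → I ≠ ⊤) →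
      SS n (fun a c => Phi H (Submodule.span k (Set.range x)) I I a 0 c) ≤
        (n.factorial : ℕ) * len I := by
  induction n with
  | zero =>
    intro H x _ hm I hI h0
    rw [sp_zero, sup_bot_eq] at hm
    have h1 : len H ≤ len I := len_anti ((le_maximalIdeal (h0 rfl)).trans hm)
    simpa [SS] using ZERO.trans (ENat.toENNReal_le.mpr h1)
  | succ n ih =>
    intro H x hx hm I hI h0
    clear h0
    induction I using WellFoundedGT.induction with
    | ind I ihI =>
    by_cases hT : I = ⊤
    · subst hT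
      refine (le_of_eq (sum_eq_zero fun p _ => ?_)).trans zero_le
      rcases p with ⟨_ | a, c⟩
      · simp [Polynomial.coeff_zero_eq_eval_zero]
      · simp [TOP]
    by_cases hL : len I = ⊤
    · rw [hL, ENat.toENNReal_top, ENNReal.mul_top (by simp [Nat.factorial_ne_zero])]
      exact le_top
    rcases dich (k := k) I (∑ i : Fin (n + 1), Polynomial.monomial i (x i)) with
      ⟨I', C, h1, h2⟩ | ⟨c, hc⟩
    · exact (SS_mono fun a c => INV C h2).trans ((ihI I' h1 (hI.trans h1.le)).trans
        (mul_le_mul_right (ENat.toENNReal_le.mpr (len_anti h1.le)) _))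
    set p := ∑ i : Fin (n + 1), Polynomial.monomial i (x i) with hp
    set y := p.eval (algebraMap k S c) with hy
    set V := Submodule.span k (Set.range x) with hV
    have e : y = ∑ i : Fin (n + 1), c ^ (i : ℕ) • x i := by
      simp [hy, hp, Polynomial.eval_finsetSum, Algebra.smul_def, mul_comm]
    have hyV : y ∈ V := e ▸ Submodule.sum_mem _ fun i _ =>
      V.smul_mem _ (Submodule.subset_span ⟨i, rfl⟩)
    have hym : I ⊔ span {y} ≤ maximalIdeal S := sup_le (le_maximalIdeal hT) (by
      rw [span_le, Set.singleton_subset_iff, e]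
      exact sum_mem fun i _ => Submodule.smul_of_tower_mem _ _ (hx i))
    have hne : I ⊔ span {y} ≠ ⊤ := fun h => (maximalIdeal.isMaximal S).ne_top (top_le_iff.mp
      (h ▸ hym))
    have hl := len_colon I y
    have hJ : I < I.colon {y} := by
      refine lt_of_le_of_ne (fun z hz => Submodule.mem_colon_singleton.mpr
        (I.mul_mem_right _ hz)) fun h => ?_
      rw [← h] at hl
      have h3 := len_lt (lt_top_iff_ne_top.mpr hne)
      rw [len_top, zero_add] at h3
      have h4 := (add_le_add_right h3 (len I)).trans hl.ge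
      exact (ENat.lt_add_one_iff hL).mpr le_rfl |>.not_ge h4
    have hVp : V ≤ (sp p.coeff).restrictScalars k := by
      rw [hV, Submodule.span_le]
      rintro _ ⟨i, rfl⟩
      have : x i = p.coeff i := by
        simp [hp, Polynomial.coeff_monomial, Fin.val_inj]
      exact this ▸ cmem _ _
    have h5 := UMB (Phi H V I (I.colon {y})) (fun a b c => S1 hk fun v hv => by
      rw [span_singleton_mul_le_iff]
      intro z hz
      exact hc z (by simpa [mul_comm] using Submodule.mem_colon_singleton.mp hz) v (hVp hv)) n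
    have h6 := ihI _ hJ (hI.trans hJ.le)
    have h7 := ih (H ⊔ span {y}) (Fin.tail x) (fun i => hx _) (hm.trans (by
      rw [sp_succ, sup_assoc]
      refine sup_le_sup_left (sup_le ?_ le_sup_right) _
      rw [span_le, Set.singleton_subset_iff]
      have : x 0 = y - ∑ i : Fin n, c ^ (i.succ : ℕ) • x i.succ := by
        rw [e, Fin.sum_univ_succ]
        simp
      rw [this]
      exact Ideal.sub_mem _ (Submodule.mem_sup_left (mem_span_singleton_self y))
        (Submodule.mem_sup_right (sum_mem fun i _ => Submodule.smul_of_tower_mem _ _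
          (subset_span ⟨i, rfl⟩))))) (I ⊔ span {y}) (sup_le_sup_right hI _) fun _ => hne
    refine (SS_mono fun a c => SYM2).trans (h5.trans ?_)
    rw [hl, ENat.toENNReal_add, mul_add]
    refine add_le_add ((SS_mono fun a c => SYM1).trans h6) ?_
    rw [Nat.factorial_succ, Nat.cast_mul, mul_assoc]
    refine mul_le_mul_right ((SS_mono fun a c => SYM2.trans (S2 hyV ?_)).trans h7) _
    exact Submodule.span_mono (by rintro _ ⟨i, rfl⟩; exact ⟨_, rfl⟩)

end Pool.Agent.H.MP_eae75b_ag
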