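import Pool.Agent.H.MP_eae75b_ag.E

set_option autoImplicit false

namespace Pool.Agent.H.MP_eae75b_ag

open Finset Ideal IsLocalRing Pool.Agent.H.MP_286f1f_ag Filter Topology MvPowerSeries

variable {k : Type} [Field k] {d : ℕ}

lemma mX_eq : mX d k = maximalIdeal (MvPowerSeries (Fin d) k) := by
  ext f
  rw [← pow_one (mX d k), MP_286f1f_ag.mem_pow, mem_maximalIdeal, mem_nonunits_iff,
    MvPowerSeries.isUnit_iff_constantCoeff, isUnit_iff_ne_zero, not_not]
  constructor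
  · intro h
    simpa using h 0 (by simp)
  · intro h x hx
    have : x = 0 := (Finsupp.degree_eq_zero_iff x).mp (by omega)
    simpa [this] using h

lemma lower {I : Ideal (MvPowerSeries (Fin (d + 1)) k)} (hI : I ≠ ⊤)
    {V : Submodule k (MvPowerSeries (Fin (d + 1)) k)} (hV : ∀ v ∈ V, v ∈ maximalIdeal _) :
    1 ≤ Phi ⊥ V I I 1 0 d := by
  refine le_iInf fun N => ?_
  rw [add_zero, pow_one, ENNReal.le_div_iff_mul_le (by simp) (by simp), one_mul]
  obtain ⟨f, g, l, hf, -, hl, h⟩ := psi_ex ⊥ V (I ^ (N : ℕ)) (I ^ (N : ℕ)) 1 0 d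
  rw [← h, ← ENat.toENNReal_coe, ENat.toENNReal_le]
  rcases NK (sp l) N with h1 | h1
  · refine h1.trans (len_anti ?_)
    rw [sp_zero, bot_sup_eq, bot_sup_eq, sup_comm]
    exact sup_le_sup_left (cle.mpr fun i => Ideal.pow_right_mono (le_maximalIdeal hI) _ (hf i)) _
  · exfalso
    have h2 : len (sp l) ≠ ⊤ := ne_top_of_le_ne_top
      (len_fin _ (maximalIdeal.isMaximal _).isPrime.radical N) (len_anti h1)
    obtain ⟨m, hm⟩ := ENat.ne_top_iff_exists.mp h2
    have h3 := len_sp_pow ⊥ l (m * (d + 1))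
    have h4 := lam_A (d := d + 1) (k := k) (m * (d + 1))
    rw [lam, smul_eq_mul, Ideal.mul_top, mX_eq] at h4
    rw [bot_sup_eq, bot_sup_eq, ← hm] at h3
    have h5 := h4.ge.trans ((len_anti (Ideal.pow_right_mono
      (cle.mpr fun i => hV _ (hl i)) _)).trans h3)
    norm_cast at h5
    have h6 := Nat.add_one_mul_choose_eq (m * (d + 1) + d) d
    have h7 : 0 < (m * (d + 1) + d).choose d := Nat.choose_pos (by omega)
    rw [← add_assoc] at h5
    nlinarith

lemma upper {S : Type} [CommRing S] {I L : Ideal S} {a m : ℕ} (N : ℕ+) {f : Fin a → S}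
    (hf : ∀ i, f i ∈ I ^ (N : ℕ)) (h : len (L ⊔ sp f) ≤ m) {e : ℝ}
    (he : Tendsto (fun n : ℕ => (a.factorial : ℝ) * ((len (I ^ n ⊔ L)).toNat : ℝ) / (n : ℝ) ^ a)
      atTop (𝓝 e)) : e ≤ m / ((N : ℕ) : ℝ) ^ a := by
  have hN : (0 : ℝ) < (N : ℕ) := by exact_mod_cast N.pos
  have h1 : Tendsto (fun j : ℕ => (N : ℕ) * (j + 1)) atTop atTop :=
    tendsto_atTop_mono (fun j => (Nat.le_succ j).trans (Nat.le_mul_of_pos_left _ N.pos)) tendsto_id
  have h2 := ((ev 1 a a).const_mul (m : ℝ)).div (ev (N : ℕ) (N : ℕ) a) (pow_pos hN a).ne'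
  rw [one_pow, mul_one] at h2
  refine le_of_tendsto_of_tendsto (he.comp h1) h2 ?_
  filter_upwards [eventually_gt_atTop 0] with j hj
  have hj' : (0 : ℝ) < j := by exact_mod_cast hj
  have h3 : len (I ^ ((N : ℕ) * (j + 1)) ⊔ L) ≤ ((j + a).choose a * m : ℕ) := by
    refine (len_anti ?_).trans ((len_sp_pow L f j).trans ?_)
    · rw [sup_comm, pow_mul]
      exact sup_le_sup_right (Ideal.pow_right_mono (cle.mpr hf) _) _
    · push_cast
      exact mul_le_mul_right h _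
  have h4 : ((len (I ^ ((N : ℕ) * (j + 1)) ⊔ L)).toNat : ℝ) ≤ (j + a).choose a * m := by
    exact_mod_cast ENat.toNat_le_of_le_natCast h3
  simp only [Function.comp_apply, Pi.div_apply]
  rw [← mul_div_assoc, div_div_div_cancel_right₀ (pow_pos hj' a).ne', one_mul]
  push_cast
  rw [mul_add ((N : ℕ) : ℝ), mul_one]
  refine div_le_div_of_nonneg_right ?_ (pow_nonneg (add_nonneg (mul_pos hN hj').le hN.le) _)
  calc _ ≤ (a.factorial : ℝ) * ((j + a).choose a * m) := by gcongr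
    _ = m * (a.factorial * ((j + a).choose a : ℕ)) := by ring
    _ ≤ _ := by
      gcongr
      exact (choose_bounds j a).2

lemma gen (I : Ideal (MvPowerSeries (Fin (d + 1)) k)) (i : Fin d) (a : ℕ) (r : ℝ)
    (hr : Phi ⊥ (Submodule.span k (Set.range X)) I I a 0 i < ENNReal.ofReal r) :
    ∃ P : MvPolynomial (Fin d × Fin (d + 1)) k, P ≠ 0 ∧ ∀ c : Fin d → Fin (d + 1) → k,
      MvPolynomial.eval (fun p => c p.1 p.2) P ≠ 0 → ∀ e : ℝ,
      Tendsto (fun n : ℕ => (a.factorial : ℝ) * ((len (I ^ n ⊔ span {f | ∃ j : Fin d,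
        j.val < i.val ∧ f = ∑ t : Fin (d + 1), c j t • (X t : MvPowerSeries (Fin (d + 1)) k)})).toNat
          : ℝ) / (n : ℝ) ^ a) atTop (𝓝 e) → e ≤ r := by
  obtain ⟨N, hN⟩ := iInf_lt_iff.mp hr
  obtain ⟨f, g, l, hf, -, hl, h⟩ :=
    psi_ex ⊥ (Submodule.span k (Set.range X)) (I ^ (N : ℕ)) (I ^ (N : ℕ)) a 0 i
  have h0 : psi ⊥ (Submodule.span k (Set.range X)) (I ^ (N : ℕ)) (I ^ (N : ℕ)) a 0 i ≠ ⊤ := by
    intro h0
    rw [h0, ENat.toENNReal_top, ENNReal.top_div_of_ne_top (by simp)] at hN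
    exact not_top_lt hN
  obtain ⟨m, hm⟩ := ENat.ne_top_iff_exists.mp h0
  have hN' : (0 : ℝ) < (N : ℕ) := by exact_mod_cast N.pos
  rw [← hm, add_zero, ENat.toENNReal_coe, ← ENNReal.ofReal_natCast, ← ENNReal.ofReal_natCast (N : ℕ),
    ← ENNReal.ofReal_pow hN'.le, ← ENNReal.ofReal_div_of_pos (pow_pos hN' a)] at hN
  have h1 := (ENNReal.ofReal_lt_ofReal_iff'.mp hN).1.le
  choose b hb using fun j => (Submodule.mem_span_range_iff_exists_fun k).mp (hl j)
  obtain ⟨P, hP0, hP⟩ := SC (σ := Fin d × Fin (d + 1)) hA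
    (fun c (j : Fin i) => ∑ t, c (j.castLE i.2.le, t) • (X t : MvPowerSeries (Fin (d + 1)) k))
    (fun j => PF.sum univ fun t => PF.smul _ _) (sp f)
    (fun p => if h : p.1.val < i.val then b ⟨p.1, h⟩ p.2 else 0)
  refine ⟨P, by rintro rfl; simp at hP0, fun c hc e he => le_trans ?_ h1⟩
  refine upper N hf ?_ he
  have h2 := hP _ hc
  simp only [Fin.val_castLE, Fin.is_lt, dite_true, Fin.eta, hb] at h2
  rw [sp_zero, bot_sup_eq, bot_sup_eq, ← hm] at h
  rw [sup_comm]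
  refine le_trans (len_anti (sup_le_sup_left (cle.mpr fun j => ?_) _)) (h2.trans h.le)
  exact subset_span ⟨j.castLE i.2.le, j.2, rfl⟩

lemma split (F : ℕ → ℕ → ENNReal) (hF : 1 ≤ F 1 d) : ∑ i : Fin d,
    ((ascPochhammer ℕ (d + 1)).coeff (d + 1 - i) : ℕ) * F (d + 1 - i) i + 1 ≤ SS (d + 1) F := by
  rw [SS, ← Nat.sum_antidiagonal_swap, Nat.sum_antidiagonal_eq_sum_range_succ_mk, sum_range_succ,
    sum_range_succ, sum_range]
  refine le_add_right (add_le_add le_rfl ?_)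
  have h : (ascPochhammer ℕ (d + 1)).coeff 1 = d.factorial := by
    rw [ascPochhammer_succ_left, Polynomial.coeff_X_mul, Polynomial.coeff_zero_eq_eval_zero]
    simp [Polynomial.eval_comp]
  simp only [Prod.fst_swap, Prod.snd_swap, add_tsub_cancel_left, h]
  exact one_le_mul (by exact_mod_cast d.factorial_pos) hF

theorem final [Infinite k] (I : Ideal (MvPowerSeries (Fin (d + 1)) k))
    (hI : I.radical = mX (d + 1) k) :
    ∃ P : MvPolynomial (Fin d × Fin (d + 1)) k, P ≠ 0 ∧ ∀ c : Fin d → Fin (d + 1) → k,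
      MvPolynomial.eval (fun p => c p.1 p.2) P ≠ 0 → ∀ e : Fin d → ℝ, (∀ i : Fin d,
      Tendsto (fun n : ℕ => ((d + 1 - i.val).factorial : ℝ) * ((len (I ^ n ⊔ span {f | ∃ j : Fin d,
        j.val < i.val ∧ f = ∑ t : Fin (d + 1), c j t • (X t : MvPowerSeries (Fin (d + 1)) k)})).toNat
          : ℝ) / (n : ℝ) ^ (d + 1 - i.val)) atTop (𝓝 (e i))) →
      ∑ i : Fin d, ((ascPochhammer ℕ (d + 1)).coeff (d + 1 - i.val) : ℝ) * e i ≤
        ((d + 1).factorial : ℝ) * (len I).toNat := by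
  rw [mX_eq] at hI
  have hT : I ≠ ⊤ := by
    rintro rfl
    exact (maximalIdeal.isMaximal _).ne_top (by rw [← hI, radical_top])
  have hx : ∀ i, (X i : MvPowerSeries (Fin (d + 1)) k) ∈ maximalIdeal _ := fun i =>
    mX_eq (k := k) ▸ subset_span ⟨i, rfl⟩
  have h1 := main hA (d + 1) ⊥ X hx (by rw [← mX_eq, bot_sup_eq]; rfl) I bot_le fun _ => hT
  set V := Submodule.span k (Set.range (X : Fin (d + 1) → MvPowerSeries (Fin (d + 1)) k))
  have hV : V ≤ (maximalIdeal _).restrictScalars k :=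
    Submodule.span_le.mpr (Set.range_subset_iff.mpr hx)
  have h2 := (split _ (lower hT hV)).trans h1
  have hL : len I ≠ ⊤ := by
    have := len_fin I hI 1
    rwa [pow_one] at this
  obtain ⟨L, hL'⟩ := ENat.ne_top_iff_exists.mp hL
  rw [← hL', ENat.toENNReal_coe] at h2
  set s : Fin d → ℕ := fun i => (ascPochhammer ℕ (d + 1)).coeff (d + 1 - i) with hs
  have hfin : ∀ i : Fin d, s i * Phi ⊥ V I I (d + 1 - i) 0 i ≠ ⊤ := fun i =>
    ne_top_of_le_ne_top (ENNReal.mul_ne_top (by simp) (by simp)) ((le_add_right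
      (single_le_sum (f := fun i : Fin d => s i * Phi ⊥ V I I (d + 1 - i) 0 i)
        (fun _ _ => zero_le) (mem_univ i))).trans h2)
  have h3 := ENNReal.toReal_mono (ENNReal.mul_ne_top (by simp) (by simp)) h2
  rw [ENNReal.toReal_add (ENNReal.sum_ne_top.mpr fun i _ => hfin i) (by simp),
    ENNReal.toReal_sum fun i _ => hfin i] at h3
  let ε : ℝ := 1 / (∑ i, (s i : ℝ) + 1)
  have hε : 0 < ε := by positivity
  have h4 : ∀ i : Fin d, ∃ P : MvPolynomial (Fin d × Fin (d + 1)) k, P ≠ 0 ∧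
      ∀ c : Fin d → Fin (d + 1) → k, MvPolynomial.eval (fun p => c p.1 p.2) P ≠ 0 → ∀ e : ℝ,
      Tendsto (fun n : ℕ => ((d + 1 - i.val).factorial : ℝ) * ((len (I ^ n ⊔ span {f | ∃ j : Fin d,
        j.val < i.val ∧ f = ∑ t : Fin (d + 1), c j t • (X t : MvPowerSeries (Fin (d + 1)) k)})).toNat
          : ℝ) / (n : ℝ) ^ (d + 1 - i.val)) atTop (𝓝 e) →
      s i * e ≤ (s i * Phi ⊥ V I I (d + 1 - i) 0 i).toReal + s i * ε := by
    intro i
    by_cases h0 : s i = 0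
    · exact ⟨1, one_ne_zero, fun c _ e _ => by simp [h0]⟩
    have h5 : Phi ⊥ V I I (d + 1 - i) 0 i ≠ ⊤ := fun h => hfin i (by
      rw [h, ENNReal.mul_top (by simpa using h0)])
    obtain ⟨P, hP0, hP⟩ := gen I i (d + 1 - i) ((Phi ⊥ V I I (d + 1 - i) 0 i).toReal + ε)
      ((ENNReal.lt_ofReal_iff_toReal_lt h5).mpr (by linarith))
    refine ⟨P, hP0, fun c hc e he => ?_⟩
    rw [ENNReal.toReal_mul, ENNReal.toReal_natCast, ← mul_add]
    exact mul_le_mul_of_nonneg_left (hP c hc e he) (Nat.cast_nonneg _)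
  choose P hP0 hP using h4
  refine ⟨∏ i, P i, prod_ne_zero_iff.mpr fun i _ => hP0 i, fun c hc e he => ?_⟩
  rw [map_prod, prod_ne_zero_iff] at hc
  refine (sum_le_sum fun i _ => hP i c (hc i (mem_univ i)) (e i) (he i)).trans ?_
  rw [sum_add_distrib, ← sum_mul, ← hL']
  have h6 : (∑ i, (s i : ℝ)) * ε ≤ 1 := by
    rw [mul_one_div, div_le_one (by positivity)]
    linarith
  simp only [ENNReal.toReal_one, ENNReal.toReal_mul, ENNReal.toReal_natCast,
    ENat.toNat_natCast] at h3 ⊢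
  linarith

end Pool.Agent.H.MP_eae75b_ag
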